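import Pool.Agent.H223.DM.Dual

/-!
# The `C⁰` estimate for the `L_p` `q`-th dual Minkowski problem fails

The problem asks (Q1) whether for every `n ≥ 2`, `p ∈ (-1, 1)`, `q > n - 1`, `λ > 1` all bodies
`K ∈ 𝒦^n_o` with `λ⁻¹ ℋ^{n-1} ≤ C̃_{p,q,K} ≤ λ ℋ^{n-1}` have uniformly bounded support function and
volume bounded from below.  We disprove it, in the problem's own negated form: for `n = 6`, `p = 0`,
`q = 6` and `λ = 5·10⁷` there are bodies `K_j ∈ 𝒦^6_o` obeying the two-sided bound with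
`sup h_{K_j} → ∞`.

The definitions (`Pool.Agent.H223.DM.Defs`) are those of the problem file:
* `IsBody K` : `K` is compact, convex, has interior points and `o ∈ K`;
* `supportFn K w = sup {⟨w, x⟩ : x ∈ K}`, `radialFn K w = sup {t ≥ 0 : t w ∈ K}`;
* `normals K x` : unit vectors `u` with `⟨u, y⟩ ≤ ⟨u, x⟩` for all `y ∈ K`;
* `revGauss K ω = α*_K(ω)`, `dualCurv q K ω = ∫_{α*_K(ω)} ϱ_K^q dℋ^{n-1}`;
* `surf n = volume.toSphere`, the surface measure `ℋ^{n-1}` on the unit sphere;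
* `IsLpDualCurv p q K μ` : `dμ = h_K^{-p} dC̃_{q,K}`;
* `TwoSided p q λ K` : `λ⁻¹ σ(ω) ≤ C̃_{p,q,K}(ω) ≤ λ σ(ω)` for all Borel `ω`.

The bodies are `K_θ = {(x, z, y) ∈ ℝ⁴ × ℝ × ℝ : z ≥ 0, |y| ≤ θ z,
|x|⁴ + z |x|² + z² - z ≤ θ z (1 - (y/(θ z))²)^{4/5}}`, dilated by `θ^{-1/6}`, with `θ → 0`.
-/

set_option autoImplicit false

namespace Pool.Agent.Results.MP_1f66ea_an.NoC0Estimate

open MeasureTheory Metric Set Filter Topology Pool.Agent.H223.DM
open scoped ENNReal InnerProductSpace Pointwise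

theorem bddAbove_support {K : Set (E 6)} (hK : IsBody K) :
    BddAbove (range fun u : S 6 => supportFn K u) := by
  obtain ⟨-, hc, -, h0⟩ := hK
  obtain ⟨M, hM⟩ := hc.isBounded.exists_norm_le
  refine ⟨M, ?_⟩
  rintro _ ⟨u, rfl⟩
  change sSup ((fun x : E 6 => ⟪(u : E 6), x⟫_ℝ) '' K) ≤ M
  refine csSup_le ⟨⟪(u : E 6), 0⟫_ℝ, ⟨0, h0, rfl⟩⟩ ?_
  rintro _ ⟨x, hx, rfl⟩
  refine (real_inner_le_norm _ _).trans ?_
  rw [norm_eq_of_mem_sphere, one_mul]
  exact hM x hx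

/-- **The `C⁰` estimate fails for `(n, p, q) = (6, 0, 6)`** (negated form of Q1): there are bodies
`K_j ∈ 𝒦^6_o` with `λ⁻¹ ℋ⁵ ≤ C̃_{0,6,K_j} ≤ λ ℋ⁵` on `S⁵`, `λ = 5·10⁷`, and
`sup_{S⁵} h_{K_j} → ∞`. -/
theorem result : ∃ K : ℕ → Set (E 6),
    (∀ j, IsBody (K j) ∧ TwoSided 0 6 50000000 (K j)) ∧
      Tendsto (fun j => ⨆ u : S 6, supportFn (K j) u) atTop atTop := by
  set M : ℕ → ℝ := fun j => (j : ℝ) + 2 with hM
  have hM1 : ∀ j, 2 ≤ M j := fun j => by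
    have : (0 : ℝ) ≤ j := Nat.cast_nonneg j
    simp only [hM]; linarith
  set θ : ℕ → ℝ := fun j => (M j ^ 6)⁻¹ with hθdef
  have hθ : ∀ j, 0 < θ j := fun j => by
    have := hM1 j
    simp only [hθdef]; positivity
  have hθ1 : ∀ j, θ j ≤ 1 / 10 := fun j => by
    simp only [hθdef]
    rw [one_div]
    apply inv_anti₀ (by norm_num)
    calc (10 : ℝ) ≤ 2 ^ 6 := by norm_num
      _ ≤ M j ^ 6 := pow_le_pow_left₀ (by norm_num) (hM1 j) 6
  have ha : ∀ j, 0 < θ j ^ (-(1 / 6) : ℝ) := fun j => Real.rpow_pos_of_pos (hθ j) _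
  have haM : ∀ j, θ j ^ (-(1 / 6) : ℝ) = M j := fun j => by
    have h0 : 0 ≤ M j := by have := hM1 j; linarith
    simp only [hθdef]
    rw [← Real.rpow_natCast, ← Real.rpow_neg h0, ← Real.rpow_mul h0]
    norm_num
  have hB : ∀ j, IsBody ((θ j ^ (-(1 / 6) : ℝ)) • K (θ j)) := fun j =>
    isBody_smul (isBody_K (hθ j)) (ha j)
  refine ⟨fun j => (θ j ^ (-(1 / 6) : ℝ)) • K (θ j),
    fun j => ⟨hB j, twoSided_K (hθ j) (hθ1 j)⟩, ?_⟩
  refine tendsto_atTop_mono (f := M) ?_ ?_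
  · intro j
    obtain ⟨u, hu⟩ := large_support (hθ j)
    rw [haM j] at hu
    refine hu.trans ?_
    have h := le_ciSup (bddAbove_support (hB j)) u
    rw [haM j] at h
    simp only [haM j]
    exact h
  · exact tendsto_natCast_atTop_atTop.atTop_add tendsto_const_nhds

/-- Corollary: the universally quantified statement of Q1 is false. -/
theorem not_Q1 : ¬ ∀ (n : ℕ) (p q lam : ℝ), 2 ≤ n → -1 < p → p < 1 → (n : ℝ) - 1 < q → 1 < lam →
    C0Estimate n p q lam := by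
  intro h
  obtain ⟨C, -, hC⟩ := h 6 0 6 50000000 (by norm_num) (by norm_num) (by norm_num) (by norm_num)
    (by norm_num)
  obtain ⟨K', hK, hT, u, hu⟩ := main C
  exact absurd ((hC K' hK hT).1 u) (not_le.2 hu)

end Pool.Agent.Results.MP_1f66ea_an.NoC0Estimate
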